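import Mathlib
import Pool.Agent.H319R2.LeighBridge

/-!
# Leigh's chain: classes in which every state has one or `d` successors

The acceleration of `T` along the deterministic paths is a generalised Collatz map of coprime type.
-/

set_option autoImplicit false

namespace Pool.Agent.Zk39.PM

open Finset Pool.Agent.H319R2.Leigh

variable {d : ℕ} {m r b : ℤ → ℤ} {e : ℤ → ℕ} {C : Finset (ℤ × ℕ)} {ρ : ℤ × ℕ → ℝ}

/-- the number `g`, so that `B` has `d / g` successors -/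
def gg (d : ℕ) (e : ℤ → ℕ) (B : ℤ × ℕ) : ℕ := Nat.gcd (B.2 * e (B.1 % d)) d

/-- the only successor of a state with `g = d` -/
def nx (d : ℕ) (m r : ℤ → ℤ) (e : ℤ → ℕ) (B : ℤ × ℕ) : ℤ × ℕ :=
  (T d m r B.1 % ((B.2 * e (B.1 % d) : ℕ) : ℤ), B.2 * e (B.1 % d) / d)

theorem d_pos (D : Data d m r b e) : (0 : ℤ) < d := by have := D.two_le; omega

theorem res (D : Data d m r b e) (x : ℤ) : 0 ≤ x % d ∧ x % d < d :=
  ⟨Int.emod_nonneg _ (d_pos D).ne', Int.emod_lt_of_pos _ (d_pos D)⟩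

theorem e_pos (D : Data d m r b e) (x : ℤ) : 0 < e (x % d) := D.pos _ (res D x).1 (res D x).2

theorem state_pos (hC : Class d m r e C ρ) {B : ℤ × ℕ} (hB : B ∈ C) : 0 < B.2 := by
  obtain ⟨h1, h2, -⟩ := hC.state B hB
  rcases Nat.eq_zero_or_pos B.2 with h | h
  · rw [h] at h2
    push_cast at h2
    omega
  · exact h

theorem nx_mul {B : ℤ × ℕ} (hg : gg d e B = d) : d * (nx d m r e B).2 = B.2 * e (B.1 % d) :=
  Nat.mul_div_cancel' (by
    have h := Nat.gcd_dvd_left (B.2 * e (B.1 % d)) d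
    unfold gg at hg
    rwa [hg] at h)

theorem P_nx (D : Data d m r b e) {B : ℤ × ℕ} (hB : 0 < B.2) (hg : gg d e B = d) :
    P d m r e B (nx d m r e B) = 1 := by
  have hd : (0 : ℝ) < d := by exact_mod_cast (d_pos D)
  have hpos : (0 : ℤ) < ((B.2 * e (B.1 % d) : ℕ) : ℤ) := by
    have := Nat.mul_pos hB (e_pos D B.1)
    exact_mod_cast this
  unfold gg at hg
  unfold P
  rw [if_pos, hg, div_self hd.ne']
  refine ⟨by rw [hg]; rfl, Int.emod_nonneg _ hpos.ne', ?_, (Int.mod_modEq _ _).symm⟩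
  have h1 : (d : ℤ) * ((nx d m r e B).2 : ℤ) = ((B.2 * e (B.1 % d) : ℕ) : ℤ) := by
    exact_mod_cast nx_mul (m := m) (r := r) (show gg d e B = d from hg)
  rw [h1]
  exact Int.emod_lt_of_pos _ hpos

theorem P_eq_nx (D : Data d m r b e) {B B' : ℤ × ℕ} (hB : 0 < B.2) (hg : gg d e B = d)
    (h : P d m r e B B' ≠ 0) : B' = nx d m r e B := by
  unfold P at h
  have hpos : (0 : ℤ) < ((B.2 * e (B.1 % d) : ℕ) : ℤ) := by
    have := Nat.mul_pos hB (e_pos D B.1)
    exact_mod_cast this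
  split_ifs at h with h1
  · obtain ⟨h2, h3, h4, h5⟩ := h1
    have hg' : Nat.gcd (B.2 * e (B.1 % d)) d = d := hg
    rw [hg'] at h2
    have h6 : B'.2 = (nx d m r e B).2 := h2
    have h7 : (d : ℤ) * (B'.2 : ℤ) = ((B.2 * e (B.1 % d) : ℕ) : ℤ) := by
      rw [h6]
      exact_mod_cast nx_mul (m := m) (r := r) hg
    rw [h7] at h4
    refine Prod.ext ?_ h6
    have h8 : T d m r B.1 % ((B.2 * e (B.1 % d) : ℕ) : ℤ) = B'.1 % ((B.2 * e (B.1 % d) : ℕ) : ℤ) := h5
    rw [Int.emod_eq_of_lt h3 h4] at h8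
    exact h8.symm
  · exact absurd rfl h

/-- a state with `g = 1` is fresh and of coprime type -/
theorem full_state (D : Data d m r b e) {B : ℤ × ℕ} (hB : 0 < B.2) (hBd : ∃ N, B.2 ∣ d ^ N)
    (hg : gg d e B = 1) : B.2 = 1 ∧ e (B.1 % d) = 1 := by
  obtain ⟨N, hN⟩ := hBd
  obtain ⟨N', hN'⟩ := D.dvd_pow _ (res D B.1).1 (res D B.1).2
  have h1 : B.2 * e (B.1 % d) ∣ d ^ (N + N') := by
    rw [pow_add]
    exact Nat.mul_dvd_mul hN hN'
  have h2 : Nat.Coprime (B.2 * e (B.1 % d)) (d ^ (N + N')) := Nat.Coprime.pow_right _ hg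
  have h3 : B.2 * e (B.1 % d) = 1 := Nat.Coprime.eq_one_of_dvd h2 h1
  exact ⟨Nat.eq_one_of_mul_eq_one_right h3, Nat.eq_one_of_mul_eq_one_left h3⟩

theorem P_full (D : Data d m r b e) {B : ℤ × ℕ} (h1 : B.2 = 1) (h2 : e (B.1 % d) = 1) (B' : ℤ × ℕ) :
    P d m r e B B' = if B'.2 = 1 ∧ 0 ≤ B'.1 ∧ B'.1 < d then 1 / (d : ℝ) else 0 := by
  unfold P
  rw [h1, h2]
  simp only [mul_one, Nat.gcd_one_left, Nat.div_one, Nat.cast_one]
  congr 1
  apply propext
  constructor
  · rintro ⟨h3, h4, h5, -⟩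
    rw [h3] at h5
    exact ⟨h3, h4, by simpa using h5⟩
  · rintro ⟨h3, h4, h5⟩
    refine ⟨h3, h4, by rw [h3]; simpa using h5, Int.modEq_one⟩

/-- the fresh states -/
theorem fresh_mem (D : Data d m r b e) (hC : Class d m r e C ρ) {B : ℤ × ℕ} (hB : B ∈ C) (hg : gg d e B = 1)
    {j : ℤ} (hj0 : 0 ≤ j) (hjd : j < d) : (j, 1) ∈ C := by
  obtain ⟨h1, h2⟩ := full_state D (state_pos hC hB) (hC.state B hB).2.2 hg
  apply hC.closed B hB
  have hd : (0 : ℝ) < d := by exact_mod_cast (d_pos D)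
  rw [P_full D h1 h2, if_pos ⟨rfl, hj0, hjd⟩]
  positivity

/-- the path -/
def st (d : ℕ) (m r : ℤ → ℤ) (e : ℤ → ℕ) (B : ℤ × ℕ) (t : ℕ) : ℤ × ℕ := (nx d m r e)^[t] B

theorem st_succ (B : ℤ × ℕ) (t : ℕ) : st d m r e B (t + 1) = nx d m r e (st d m r e B t) :=
  Function.iterate_succ_apply' _ _ _

theorem st_succ' (B : ℤ × ℕ) (t : ℕ) : st d m r e B (t + 1) = st d m r e (nx d m r e B) t :=
  Function.iterate_succ_apply _ _ _

theorem st_zero (B : ℤ × ℕ) : st d m r e B 0 = B := rfl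

theorem nx_mem (D : Data d m r b e) (hC : Class d m r e C ρ) {B : ℤ × ℕ} (hB : B ∈ C) (hg : gg d e B = d) :
    nx d m r e B ∈ C := by
  apply hC.closed B hB
  rw [P_nx D (state_pos hC hB) hg]
  exact one_pos

/-- the path reaches a state with `g = 1` -/
theorem exists_full (D : Data d m r b e) (hC : Class d m r e C ρ) (hf : ∀ B ∈ C, gg d e B = 1 ∨ gg d e B = d)
    {Bf : ℤ × ℕ} (hBf : Bf ∈ C) (hBf1 : gg d e Bf = 1) {B : ℤ × ℕ} (hB : B ∈ C) :
    ∃ t, gg d e (st d m r e B t) = 1 := by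
  by_contra hcon
  push Not at hcon
  have h1 : ∀ t, st d m r e B t ∈ C ∧ gg d e (st d m r e B t) = d := by
    intro t
    induction t with
    | zero =>
      refine ⟨hB, (hf _ hB).resolve_left (hcon 0)⟩
    | succ t ih =>
      have h2 : st d m r e B (t + 1) ∈ C := by
        rw [st_succ]
        exact nx_mem D hC ih.1 ih.2
      exact ⟨h2, (hf _ h2).resolve_left (hcon _)⟩
  have h2 : ∀ X, Relation.ReflTransGen (fun X Y => 0 < P d m r e X Y) B X → ∃ t, X = st d m r e B t := by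
    intro X hX
    induction hX with
    | refl => exact ⟨0, rfl⟩
    | tail _ h ih =>
      obtain ⟨t, rfl⟩ := ih
      refine ⟨t + 1, ?_⟩
      rw [st_succ]
      exact P_eq_nx D (state_pos hC (h1 t).1) (h1 t).2 h.ne'
  obtain ⟨t, ht⟩ := h2 Bf (hC.comm B hB Bf hBf)
  exact hcon t (by rw [← ht]; exact hBf1)

/-- `T` is affine on the states -/
theorem T_affine (D : Data d m r b e) (j : ℤ) (k : ℕ) (y : ℤ) :
    T d m r (j + d * k * y) = T d m r j + b (j % d) * ((k * e (j % d) : ℕ) : ℤ) * y := by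
  have hd := d_pos D
  have h1 : (j + d * k * y) % d = j % d := by
    rw [mul_assoc]
    exact Int.add_mul_emod_self_left _ _ _
  have h2 := (gm D).T_mul (j + d * k * y)
  have h3 := (gm D).T_mul j
  have e1 : (gm D).T = T d m r := rfl
  have e2 : (gm D).d = d := rfl
  have e3 : (gm D).m = m := rfl
  have e4 : (gm D).r = r := rfl
  rw [e1, e2, e3, e4] at h2 h3
  rw [h1] at h2
  have h4 := D.fac _ (res D j).1 (res D j).2
  apply mul_left_cancel₀ hd.ne'
  rw [h2]
  push_cast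
  linear_combination (-1) * h3 + (d : ℤ) * k * y * h4

/-- the product of the `b` along the path -/
def bp (d : ℕ) (m r b : ℤ → ℤ) (e : ℤ → ℕ) (B : ℤ × ℕ) (t : ℕ) : ℤ :=
  ∏ s ∈ range t, b ((st d m r e B s).1 % d)

theorem path_affine (D : Data d m r b e) (B : ℤ × ℕ) (t : ℕ) (hg : ∀ s < t, gg d e (st d m r e B s) = d) (y : ℤ) :
    (T d m r)^[t] (B.1 + d * B.2 * y) = (T d m r)^[t] B.1 + bp d m r b e B t * (d * (st d m r e B t).2) * y ∧
      ∃ z : ℤ, (T d m r)^[t] B.1 = (st d m r e B t).1 + d * (st d m r e B t).2 * z := by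
  induction t with
  | zero =>
    constructor
    · simp [bp, st]
    · exact ⟨0, by simp [st]⟩
  | succ t ih =>
    obtain ⟨h1, z, h2⟩ := ih fun s hs => hg s (by omega)
    have hgt := hg t (by omega)
    set Y := st d m r e B t with hY
    have h3 : (d : ℤ) * ((nx d m r e Y).2 : ℤ) = ((Y.2 * e (Y.1 % d) : ℕ) : ℤ) := by
      exact_mod_cast nx_mul (m := m) (r := r) hgt
    have hb : bp d m r b e B (t + 1) = bp d m r b e B t * b (Y.1 % d) := by
      unfold bp
      rw [prod_range_succ]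
    have h4 : (T d m r)^[t + 1] B.1 = T d m r Y.1 + b (Y.1 % d) * ((Y.2 * e (Y.1 % d) : ℕ) : ℤ) * z := by
      rw [Function.iterate_succ_apply', h2, T_affine D]
    constructor
    · rw [Function.iterate_succ_apply', h1, h2]
      have e1 : Y.1 + (d : ℤ) * Y.2 * z + bp d m r b e B t * (d * Y.2) * y =
          Y.1 + (d : ℤ) * Y.2 * (z + bp d m r b e B t * y) := by ring
      rw [e1, T_affine D, h4, st_succ, ← hY, hb, h3]
      ring
    · rw [st_succ, ← hY, h4, h3]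
      refine ⟨b (Y.1 % d) * z + T d m r Y.1 / ((Y.2 * e (Y.1 % d) : ℕ) : ℤ), ?_⟩
      have h5 := Int.emod_add_mul_ediv (T d m r Y.1) ((Y.2 * e (Y.1 % d) : ℕ) : ℤ)
      have h6 : (nx d m r e Y).1 = T d m r Y.1 % ((Y.2 * e (Y.1 % d) : ℕ) : ℤ) := rfl
      rw [h6]
      linear_combination -h5

/-- after the state with `g = 1` -/
theorem path_full (D : Data d m r b e) (hC : Class d m r e C ρ) {B : ℤ × ℕ} (hB : B ∈ C) (t : ℕ)
    (hg : ∀ s < t, gg d e (st d m r e B s) = d) (hg1 : gg d e (st d m r e B t) = 1) (y : ℤ) :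
    (T d m r)^[t + 1] (B.1 + d * B.2 * y) = (T d m r)^[t + 1] B.1 + bp d m r b e B (t + 1) * y := by
  obtain ⟨h1, z, h2⟩ := path_affine D B t hg y
  have hmem : ∀ s, s ≤ t → st d m r e B s ∈ C := by
    intro s
    induction s with
    | zero => intro _; exact hB
    | succ s ih =>
      intro hs
      rw [st_succ]
      exact nx_mem D hC (ih (by omega)) (hg s (by omega))
  have ht := hmem t le_rfl
  obtain ⟨h3, h4⟩ := full_state D (state_pos hC ht) (hC.state _ ht).2.2 hg1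
  set Y := st d m r e B t with hY
  have hb : bp d m r b e B (t + 1) = bp d m r b e B t * b (Y.1 % d) := by
    unfold bp
    rw [prod_range_succ]
  rw [Function.iterate_succ_apply', Function.iterate_succ_apply', h1, h2]
  have e1 : Y.1 + (d : ℤ) * Y.2 * z + bp d m r b e B t * (d * Y.2) * y =
      Y.1 + (d : ℤ) * Y.2 * (z + bp d m r b e B t * y) := by ring
  rw [e1, T_affine D, T_affine D, hb, h3, h4]
  push_cast
  ring

end Pool.Agent.Zk39.PM
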