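import Mathlib
import Pool.Agent.Zk39.PM.Acc

/-!
# The drift of the accelerated map
-/

set_option autoImplicit false

namespace Pool.Agent.Zk39.PM

open Finset Pool.Agent.H319R2.Leigh

variable {d : ℕ} {m r b : ℤ → ℤ} {e : ℤ → ℕ} {C : Finset (ℤ × ℕ)} {ρ : ℤ × ℕ → ℝ}

open Classical in
/-- number of steps before the state with `g = 1` -/
noncomputable def ta (d : ℕ) (m r : ℤ → ℤ) (e : ℤ → ℕ) (B : ℤ × ℕ) : ℕ :=
  if h : ∃ t, gg d e (st d m r e B t) = 1 then Nat.find h else 0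

theorem st_mem (D : Data d m r b e) (hC : Class d m r e C ρ) {B : ℤ × ℕ} (hB : B ∈ C) (t : ℕ)
    (hg : ∀ s < t, gg d e (st d m r e B s) = d) : ∀ s ≤ t, st d m r e B s ∈ C := by
  intro s
  induction s with
  | zero => intro _; exact hB
  | succ s ih =>
    intro hs
    rw [st_succ]
    exact nx_mem D hC (ih (by omega)) (hg s (by omega))

theorem ta_spec (D : Data d m r b e) (hC : Class d m r e C ρ) (hf : ∀ B ∈ C, gg d e B = 1 ∨ gg d e B = d)
    {Bf : ℤ × ℕ} (hBf : Bf ∈ C) (hBf1 : gg d e Bf = 1) {B : ℤ × ℕ} (hB : B ∈ C) :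
    gg d e (st d m r e B (ta d m r e B)) = 1 ∧ (∀ s < ta d m r e B, gg d e (st d m r e B s) = d) ∧
      ∀ s ≤ ta d m r e B, st d m r e B s ∈ C := by
  classical
  have hex := exists_full D hC hf hBf hBf1 hB
  have e1 : ta d m r e B = Nat.find hex := by
    unfold ta
    rw [dif_pos hex]
  have h1 : gg d e (st d m r e B (ta d m r e B)) = 1 := by
    rw [e1]; exact Nat.find_spec hex
  have h2 : ∀ t, t ≤ ta d m r e B → (∀ s < t, gg d e (st d m r e B s) = d) ∧ st d m r e B t ∈ C := by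
    intro t
    induction t with
    | zero => intro _; exact ⟨fun s hs => absurd hs (Nat.not_lt_zero _), hB⟩
    | succ t ih =>
      intro ht
      obtain ⟨h3, h4⟩ := ih (by omega)
      have h5 : gg d e (st d m r e B t) = d := by
        refine (hf _ h4).resolve_left fun h6 => ?_
        have h7 : Nat.find hex ≤ t := Nat.find_min' hex h6
        omega
      refine ⟨fun s hs => ?_, ?_⟩
      · rcases Nat.lt_succ_iff_lt_or_eq.1 hs with h6 | h6
        · exact h3 s h6
        · rw [h6]; exact h5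
      · rw [st_succ]
        exact nx_mem D hC h4 h5
  exact ⟨h1, (h2 _ le_rfl).1, fun s hs => (h2 s hs).2⟩

theorem ta_zero {B : ℤ × ℕ} (hg : gg d e B = 1) : ta d m r e B = 0 := by
  classical
  unfold ta
  split_ifs with h
  · rw [Nat.find_eq_zero]
    exact hg
  · rfl

theorem ta_nx (D : Data d m r b e) (hC : Class d m r e C ρ) (hf : ∀ B ∈ C, gg d e B = 1 ∨ gg d e B = d)
    {Bf : ℤ × ℕ} (hBf : Bf ∈ C) (hBf1 : gg d e Bf = 1) {B : ℤ × ℕ} (hB : B ∈ C) (hg : gg d e B = d) :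
    ta d m r e B = ta d m r e (nx d m r e B) + 1 := by
  have hd := D.two_le
  obtain ⟨h1, h2, -⟩ := ta_spec D hC hf hBf hBf1 hB
  obtain ⟨h3, h4, -⟩ := ta_spec D hC hf hBf hBf1 (nx_mem D hC hB hg)
  have h5 : ta d m r e B ≠ 0 := by
    intro h0
    rw [h0, st_zero, hg] at h1
    omega
  obtain ⟨t, ht⟩ := Nat.exists_eq_succ_of_ne_zero h5
  rw [ht, Nat.succ_eq_add_one, st_succ'] at h1
  have h6 : ¬ t < ta d m r e (nx d m r e B) := by
    intro h7
    have := h4 t h7
    omega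
  have h7 : ¬ ta d m r e (nx d m r e B) < t := by
    intro h8
    have h9 := h2 (ta d m r e (nx d m r e B) + 1) (by omega)
    rw [st_succ', h3] at h9
    omega
  omega

/-- the logarithm of the rate -/
noncomputable def la (d : ℕ) (m : ℤ → ℤ) (B : ℤ × ℕ) : ℝ := Real.log (|(m (B.1 % d) : ℝ)| / d)

/-- the logarithm of the product of the rates along the path -/
noncomputable def hh (d : ℕ) (m r : ℤ → ℤ) (e : ℤ → ℕ) (B : ℤ × ℕ) : ℝ :=
  ∑ t ∈ range (ta d m r e B + 1), la d m (st d m r e B t)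

theorem hh_full {B : ℤ × ℕ} (hg : gg d e B = 1) : hh d m r e B = la d m B := by
  unfold hh
  rw [ta_zero hg, zero_add, sum_range_one, st_zero]

theorem hh_nx (D : Data d m r b e) (hC : Class d m r e C ρ) (hf : ∀ B ∈ C, gg d e B = 1 ∨ gg d e B = d)
    {Bf : ℤ × ℕ} (hBf : Bf ∈ C) (hBf1 : gg d e Bf = 1) {B : ℤ × ℕ} (hB : B ∈ C) (hg : gg d e B = d) :
    hh d m r e B = la d m B + hh d m r e (nx d m r e B) := by
  unfold hh
  rw [ta_nx D hC hf hBf hBf1 hB hg, sum_range_succ', st_zero, add_comm]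
  congr 1

theorem log_Lam' (D : Data d m r b e) (hC : Class d m r e C ρ) :
    Real.log (Lam d m C ρ) = ∑ B ∈ C, ρ B * la d m B := log_Lam D hC

/-- stationarity -/
theorem stat_sum (hC : Class d m r e C ρ) (h : ℤ × ℕ → ℝ) :
    ∑ B ∈ C, ρ B * ∑ B' ∈ C, P d m r e B B' * h B' = ∑ B ∈ C, ρ B * h B := by
  simp only [mul_sum]
  rw [sum_comm]
  refine sum_congr rfl fun B' hB' => ?_
  rw [← hC.stat B' hB', sum_mul]
  exact sum_congr rfl fun B _ => by ring

theorem inner_nx (D : Data d m r b e) (hC : Class d m r e C ρ) {B : ℤ × ℕ} (hB : B ∈ C) (hg : gg d e B = d)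
    (h : ℤ × ℕ → ℝ) : ∑ B' ∈ C, P d m r e B B' * h B' = h (nx d m r e B) := by
  rw [sum_eq_single (nx d m r e B), P_nx D (state_pos hC hB) hg, one_mul]
  · intro B' _ hne
    by_cases h0 : P d m r e B B' = 0
    · rw [h0, zero_mul]
    · exact absurd (P_eq_nx D (state_pos hC hB) hg h0) hne
  · intro h0
    exact absurd (nx_mem D hC hB hg) h0

theorem inner_full (D : Data d m r b e) (hC : Class d m r e C ρ) {B : ℤ × ℕ} (hB : B ∈ C) (hg : gg d e B = 1)
    (h : ℤ × ℕ → ℝ) :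
    ∑ B' ∈ C, P d m r e B B' * h B' = (1 / (d : ℝ)) * ∑ j ∈ range d, h ((j : ℤ), 1) := by
  classical
  obtain ⟨h1, h2⟩ := full_state D (state_pos hC hB) (hC.state B hB).2.2 hg
  have h3 : ∀ B' ∈ C, P d m r e B B' * h B' =
      if B'.2 = 1 ∧ 0 ≤ B'.1 ∧ B'.1 < d then (1 / (d : ℝ)) * h B' else 0 := by
    intro B' _
    rw [P_full D h1 h2]
    split_ifs with h4
    · rfl
    · rw [zero_mul]
  rw [sum_congr rfl h3, ← sum_filter, ← mul_sum]
  congr 1
  have h4 : C.filter (fun B' => B'.2 = 1 ∧ 0 ≤ B'.1 ∧ B'.1 < (d : ℤ)) =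
      (range d).image fun j : ℕ => (((j : ℤ), 1) : ℤ × ℕ) := by
    ext B'
    rw [mem_filter, mem_image]
    constructor
    · rintro ⟨-, h5, h6, h7⟩
      refine ⟨B'.1.toNat, mem_range.2 (by omega), ?_⟩
      refine Prod.ext ?_ h5.symm
      show ((B'.1.toNat : ℕ) : ℤ) = B'.1
      exact Int.toNat_of_nonneg h6
    · rintro ⟨j, hj, rfl⟩
      rw [mem_range] at hj
      have hj' : (j : ℤ) < d := by exact_mod_cast hj
      exact ⟨fresh_mem D hC hB hg (by positivity) hj', rfl, Int.natCast_nonneg j, hj'⟩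
  rw [h4, sum_image]
  intro i _ j _ hij
  have h5 : (i : ℤ) = (j : ℤ) := congrArg Prod.fst hij
  exact_mod_cast h5

/-- if there is no state with `g = 1` then `Λ ≥ 1` -/
theorem exists_Bf (D : Data d m r b e) (hC : Class d m r e C ρ) (hf : ∀ B ∈ C, gg d e B = 1 ∨ gg d e B = d)
    (hL : Real.log (Lam d m C ρ) < 0) : ∃ B ∈ C, gg d e B = 1 := by
  by_contra hcon
  push Not at hcon
  have hd : (0 : ℝ) < d := by exact_mod_cast d_pos D
  have hall : ∀ B ∈ C, gg d e B = d := fun B hB => (hf B hB).resolve_left (hcon B hB)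
  have h1 := stat_sum hC (fun B => Real.log (B.2 : ℝ))
  have h2 : ∀ B ∈ C, ∑ B' ∈ C, P d m r e B B' * Real.log (B'.2 : ℝ) =
      Real.log (B.2 : ℝ) + (Real.log (e (B.1 % d) : ℝ) - Real.log d) := by
    intro B hB
    rw [inner_nx D hC hB (hall B hB) (fun B => Real.log (B.2 : ℝ))]
    have h3 : (d : ℝ) * ((nx d m r e B).2 : ℝ) = (B.2 : ℝ) * e (B.1 % d) := by
      exact_mod_cast nx_mul (m := m) (r := r) (hall B hB)
    have h4 : (0 : ℝ) < B.2 := by exact_mod_cast state_pos hC hB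
    have h5 : (0 : ℝ) < e (B.1 % d) := by exact_mod_cast e_pos D B.1
    have h6 : (0 : ℝ) < (nx d m r e B).2 := by exact_mod_cast state_pos hC (nx_mem D hC hB (hall B hB))
    have h7 := congrArg Real.log h3
    rw [Real.log_mul hd.ne' h6.ne', Real.log_mul h4.ne' h5.ne'] at h7
    show Real.log ((nx d m r e B).2 : ℝ) = _
    linarith
  rw [sum_congr rfl fun B hB => by rw [h2 B hB]] at h1
  simp only [mul_add, sum_add_distrib] at h1
  have h3 : ∑ B ∈ C, ρ B * (Real.log (e (B.1 % d) : ℝ) - Real.log d) = 0 := by linarith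
  have h4 : ∀ B ∈ C, ρ B * la d m B = ρ B * Real.log |(b (B.1 % d) : ℝ)| +
      ρ B * (Real.log (e (B.1 % d) : ℝ) - Real.log d) := by
    intro B hB
    have h5 : (0 : ℝ) < e (B.1 % d) := by exact_mod_cast e_pos D B.1
    have h6 : (b (B.1 % d) : ℝ) ≠ 0 := by
      intro h0
      have h7 : b (B.1 % d) = 0 := by exact_mod_cast h0
      have h8 := D.cop _ (res D B.1).1 (res D B.1).2
      rw [h7, isCoprime_zero_left, Int.isUnit_iff] at h8
      have := D.two_le
      omega
    unfold la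
    rw [D.fac _ (res D B.1).1 (res D B.1).2]
    push_cast
    rw [abs_mul, Nat.abs_cast, mul_div_assoc, Real.log_mul (abs_pos.2 h6).ne' (by positivity),
      Real.log_div h5.ne' hd.ne']
    ring
  rw [log_Lam' D hC, sum_congr rfl h4, sum_add_distrib, h3, add_zero] at hL
  refine absurd hL (not_lt.2 (sum_nonneg fun B hB => mul_nonneg (hC.nonneg B hB) (Real.log_nonneg ?_)))
  have h6 : b (B.1 % d) ≠ 0 := by
    intro h7
    have h8 := D.cop _ (res D B.1).1 (res D B.1).2
    rw [h7, isCoprime_zero_left, Int.isUnit_iff] at h8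
    have := D.two_le
    omega
  have h7 := Int.one_le_abs h6
  exact_mod_cast h7

/-- the drift of the accelerated map is negative -/
theorem sum_hh_neg (D : Data d m r b e) (hC : Class d m r e C ρ) (hf : ∀ B ∈ C, gg d e B = 1 ∨ gg d e B = d)
    (hL : Real.log (Lam d m C ρ) < 0) : ∑ j ∈ range d, hh d m r e ((j : ℤ), 1) < 0 := by
  classical
  obtain ⟨Bf, hBf, hBf1⟩ := exists_Bf D hC hf hL
  have hd : (0 : ℝ) < d := by exact_mod_cast d_pos D
  have hd2 := D.two_le
  set Hb : ℝ := (1 / (d : ℝ)) * ∑ j ∈ range d, hh d m r e ((j : ℤ), 1) with hHb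
  have h1 := stat_sum hC (hh d m r e)
  have h2 : ∀ B ∈ C, ρ B * ∑ B' ∈ C, P d m r e B B' * hh d m r e B' =
      ρ B * hh d m r e B - ρ B * la d m B + (if gg d e B = 1 then ρ B else 0) * Hb := by
    intro B hB
    rcases hf B hB with hg | hg
    · rw [inner_full D hC hB hg, if_pos hg, hh_full hg, ← hHb]
      ring
    · rw [inner_nx D hC hB hg, if_neg (by omega), hh_nx D hC hf hBf hBf1 hB hg]
      ring
  rw [sum_congr rfl h2, sum_add_distrib, sum_sub_distrib, ← log_Lam' D hC, ← sum_mul] at h1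
  have h3 : (∑ B ∈ C, if gg d e B = 1 then ρ B else 0) * Hb < 0 := by linarith
  have h4 : 0 ≤ ∑ B ∈ C, if gg d e B = 1 then ρ B else 0 := by
    refine sum_nonneg fun B hB => ?_
    split_ifs
    · exact hC.nonneg B hB
    · exact le_rfl
  have h5 : Hb < 0 := by
    by_contra hcon
    exact absurd h3 (not_lt.2 (mul_nonneg h4 (not_lt.1 hcon)))
  rw [hHb] at h5
  by_contra hcon
  exact absurd h5 (not_lt.2 (mul_nonneg (by positivity) (not_lt.1 hcon)))

/-- the product of the rates along the path is the multiplier of the accelerated map -/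
theorem prod_path (D : Data d m r b e) {B : ℤ × ℕ} (hB : 0 < B.2) (t : ℕ)
    (hg : ∀ s < t, gg d e (st d m r e B s) = d) :
    (∏ s ∈ range t, |(m ((st d m r e B s).1 % d) : ℝ)| / d) * B.2 =
      |(bp d m r b e B t : ℝ)| * (st d m r e B t).2 := by
  have hd : (0 : ℝ) < d := by exact_mod_cast d_pos D
  induction t with
  | zero => simp [bp, st]
  | succ t ih =>
    have ih' := ih fun s hs => hg s (by omega)
    have hgt := hg t (by omega)
    set Y := st d m r e B t with hY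
    have h3 : (d : ℝ) * ((nx d m r e Y).2 : ℝ) = (Y.2 : ℝ) * e (Y.1 % d) := by
      exact_mod_cast nx_mul (m := m) (r := r) hgt
    have hb : bp d m r b e B (t + 1) = bp d m r b e B t * b (Y.1 % d) := by
      unfold bp
      rw [prod_range_succ]
    rw [prod_range_succ, st_succ, ← hY, hb, D.fac _ (res D Y.1).1 (res D Y.1).2]
    push_cast
    rw [abs_mul, abs_mul, Nat.abs_cast]
    have e1 : (∏ s ∈ range t, |(m ((st d m r e B s).1 % d) : ℝ)| / d) *
        (|(b (Y.1 % d) : ℝ)| * (e (Y.1 % d) : ℝ) / d) * B.2 =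
        ((∏ s ∈ range t, |(m ((st d m r e B s).1 % d) : ℝ)| / d) * B.2) *
        (|(b (Y.1 % d) : ℝ)| * (e (Y.1 % d) : ℝ) / d) := by ring
    rw [e1, ih']
    field_simp
    linear_combination (-(|(bp d m r b e B t : ℝ)|) * |(b (Y.1 % d) : ℝ)|) * h3

theorem hh_eq (D : Data d m r b e) (hC : Class d m r e C ρ) (hf : ∀ B ∈ C, gg d e B = 1 ∨ gg d e B = d)
    {Bf : ℤ × ℕ} (hBf : Bf ∈ C) (hBf1 : gg d e Bf = 1) {B : ℤ × ℕ} (hB : B ∈ C) (hB1 : B.2 = 1) :
    hh d m r e B = Real.log (|(bp d m r b e B (ta d m r e B + 1) : ℝ)| / d) := by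
  have hd : (0 : ℝ) < d := by exact_mod_cast d_pos D
  obtain ⟨h1, h2, h3⟩ := ta_spec D hC hf hBf hBf1 hB
  have h4 := prod_path D (state_pos hC hB) _ h2
  obtain ⟨h5, h6⟩ := full_state D (state_pos hC (h3 _ le_rfl)) (hC.state _ (h3 _ le_rfl)).2.2 h1
  rw [hB1, h5, Nat.cast_one, mul_one, mul_one] at h4
  unfold hh la
  rw [← Real.log_prod]
  · congr 1
    rw [prod_range_succ, h4]
    unfold bp
    rw [prod_range_succ, D.fac _ (res D _).1 (res D (st d m r e B (ta d m r e B)).1).2, h6]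
    push_cast
    rw [abs_mul, abs_mul, abs_one, mul_one]
    ring
  · intro t _
    have h7 : m ((st d m r e B t).1 % d) ≠ 0 := (gm D).m_ne _
    have h8 : (m ((st d m r e B t).1 % d) : ℝ) ≠ 0 := by exact_mod_cast h7
    positivity

end Pool.Agent.Zk39.PM
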