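import Mathlib
import Pool.Agent.Zk39.PM.Drift
import Pool.Agent.TH930.GH.Leigh

/-!
# Power saving for the classes in which every state has one or `d` successors
-/

set_option autoImplicit false

namespace Pool.Agent.Zk39.PM

open Finset Pool.Agent.H319R2.Leigh
open Pool.Agent.H319R3.GC (Tm Adm)

variable {d : ℕ} {m r b : ℤ → ℤ} {e : ℤ → ℕ} {C : Finset (ℤ × ℕ)} {ρ : ℤ × ℕ → ℝ}

/-- the multipliers of the accelerated map -/
noncomputable def ma (d : ℕ) (m r b : ℤ → ℤ) (e : ℤ → ℕ) (i : ℕ) : ℤ :=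
  bp d m r b e ((i : ℤ), 1) (ta d m r e ((i : ℤ), 1) + 1)

/-- the remainders of the accelerated map -/
noncomputable def ra (d : ℕ) (m r b : ℤ → ℤ) (e : ℤ → ℕ) (i : ℕ) : ℤ :=
  i * ma d m r b e i - d * (T d m r)^[ta d m r e ((i : ℤ), 1) + 1] i

theorem ma_cop (D : Data d m r b e) (i : ℕ) : IsCoprime (ma d m r b e i) (d : ℤ) := by
  unfold ma bp
  exact IsCoprime.prod_left fun s _ => D.cop _ (res D _).1 (res D _).2

theorem ra_cong (i : ℕ) : ra d m r b e i ≡ i * ma d m r b e i [ZMOD d] := by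
  unfold ra
  rw [Int.modEq_iff_dvd]
  exact ⟨(T d m r)^[ta d m r e ((i : ℤ), 1) + 1] i, by ring⟩

/-- the accelerated map -/
theorem Tm_eq (D : Data d m r b e) (hC : Class d m r e C ρ) (hf : ∀ B ∈ C, gg d e B = 1 ∨ gg d e B = d)
    {Bf : ℤ × ℕ} (hBf : Bf ∈ C) (hBf1 : gg d e Bf = 1) (x : ℤ) :
    Tm d (ma d m r b e) (ra d m r b e) x = (T d m r)^[ta d m r e (x % d, 1) + 1] x := by
  have hd := d_pos D
  obtain ⟨h0, h1⟩ := res D x
  have hmem := fresh_mem D hC hBf hBf1 h0 h1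
  obtain ⟨h2, h3, -⟩ := ta_spec D hC hf hBf hBf1 hmem
  have h4 := path_full D hC hmem _ h3 h2 (x / d)
  have h5 : (x % d) + (d : ℤ) * ((1 : ℕ) : ℤ) * (x / d) = x := by
    rw [Nat.cast_one, mul_one]
    exact Int.emod_add_mul_ediv x d
  have h6 : ((x % (d : ℤ)).toNat : ℤ) = x % d := Int.toNat_of_nonneg h0
  have h4' : (T d m r)^[ta d m r e (x % d, 1) + 1] x =
      (T d m r)^[ta d m r e (x % d, 1) + 1] (x % d) + ma d m r b e (x % (d : ℤ)).toNat * (x / d) := by
    unfold ma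
    rw [h6, ← h4]
    congr 1
    exact h5.symm
  unfold Tm
  have h7 : ra d m r b e (x % (d : ℤ)).toNat = (x % d) * ma d m r b e (x % (d : ℤ)).toNat -
      d * (T d m r)^[ta d m r e (x % d, 1) + 1] (x % d) := by
    unfold ra
    rw [h6]
  rw [h7, h4']
  have h8 : ma d m r b e (x % (d : ℤ)).toNat * x - ((x % d) * ma d m r b e (x % (d : ℤ)).toNat -
      d * (T d m r)^[ta d m r e (x % d, 1) + 1] (x % d)) = d *
      ((T d m r)^[ta d m r e (x % d, 1) + 1] (x % d) + ma d m r b e (x % (d : ℤ)).toNat * (x / d)) := by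
    have h9 := Int.emod_add_mul_ediv x d
    linear_combination (-(ma d m r b e (x % (d : ℤ)).toNat)) * h9
  rw [h8, Int.mul_ediv_cancel_left _ hd.ne']

theorem Tm_iter (D : Data d m r b e) (hC : Class d m r e C ρ) (hf : ∀ B ∈ C, gg d e B = 1 ∨ gg d e B = d)
    {Bf : ℤ × ℕ} (hBf : Bf ∈ C) (hBf1 : gg d e Bf = 1) (x : ℤ) (n : ℕ) :
    ∃ N : ℕ, (Tm d (ma d m r b e) (ra d m r b e))^[n] x = (T d m r)^[N] x := by
  induction n with
  | zero => exact ⟨0, rfl⟩
  | succ n ih =>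
    obtain ⟨N, hN⟩ := ih
    refine ⟨ta d m r e ((T d m r)^[N] x % d, 1) + 1 + N, ?_⟩
    rw [Function.iterate_succ_apply', hN, Tm_eq D hC hf hBf hBf1, ← Function.iterate_add_apply]

theorem contr (D : Data d m r b e) (hC : Class d m r e C ρ) (hf : ∀ B ∈ C, gg d e B = 1 ∨ gg d e B = d)
    (hL : Real.log (Lam d m C ρ) < 0) : ∏ i ∈ range d, |(ma d m r b e i : ℝ) / d| < 1 := by
  obtain ⟨Bf, hBf, hBf1⟩ := exists_Bf D hC hf hL
  have hd : (0 : ℝ) < d := by exact_mod_cast d_pos D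
  have h1 := sum_hh_neg D hC hf hL
  have hne : ∀ i ∈ range d, |(ma d m r b e i : ℝ) / d| ≠ 0 := by
    intro i _
    have h2 : ma d m r b e i ≠ 0 := by
      intro h0
      have h3 := ma_cop D (b := b) i
      rw [h0, isCoprime_zero_left, Int.isUnit_iff] at h3
      have := D.two_le
      omega
    have h3 : (ma d m r b e i : ℝ) ≠ 0 := by exact_mod_cast h2
    positivity
  have h2 : Real.log (∏ i ∈ range d, |(ma d m r b e i : ℝ) / d|) = ∑ j ∈ range d, hh d m r e ((j : ℤ), 1) := by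
    rw [Real.log_prod hne]
    refine sum_congr rfl fun j hj => ?_
    rw [mem_range] at hj
    have hmem := fresh_mem D hC hBf hBf1 (j := (j : ℤ)) (by positivity) (by exact_mod_cast hj)
    rw [hh_eq D hC hf hBf hBf1 hmem rfl, abs_div, abs_of_pos hd]
    rfl
  have h3 : 0 < ∏ i ∈ range d, |(ma d m r b e i : ℝ) / d| :=
    prod_pos fun i hi => lt_of_le_of_ne (abs_nonneg _) (hne i hi).symm
  rw [← h2] at h1
  exact (Real.log_neg_iff h3).1 h1

/-- a contracting map has all its trajectories entering a fixed interval -/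
theorem enters_small {d : ℕ} (hd : 2 ≤ d) {m r : ℕ → ℤ} (hm : ∀ i < d, IsCoprime (m i) (d : ℤ))
    (hr : ∀ i < d, r i ≡ i * m i [ZMOD d]) (hb : ¬ ∃ i < d, (d : ℤ) < |m i|) :
    ∃ R : ℝ, 1 ≤ R ∧ ∀ x : ℤ, ∃ k : ℕ, |(((Tm d m r)^[k] x : ℤ) : ℝ)| ≤ R := by
  obtain ⟨R, hR⟩ : ∃ R : ℕ, ∀ i < d, |r i| ≤ (R : ℤ) := by
    refine ⟨∑ i ∈ range d, (r i).natAbs, fun i hi => ?_⟩
    rw [Int.abs_eq_natAbs]
    exact_mod_cast single_le_sum (f := fun i => (r i).natAbs) (fun _ _ => Nat.zero_le _) (mem_range.2 hi)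
  have hd0 : (0 : ℤ) < d := by exact_mod_cast (by omega : 0 < d)
  have key : ∀ (v : ℕ) (x : ℤ), x.natAbs ≤ v → ∃ k : ℕ, |(Tm d m r)^[k] x| ≤ (R : ℤ) := by
    intro v
    induction v with
    | zero =>
      intro x hx
      refine ⟨0, ?_⟩
      have : x = 0 := by omega
      rw [this]
      simp
    | succ v ih =>
      intro x hx
      by_cases hxR : |x| ≤ (R : ℤ)
      · exact ⟨0, hxR⟩
      · push Not at hxR
        have h0 : 0 ≤ x % (d : ℤ) := Int.emod_nonneg _ hd0.ne'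
        have h0' : x % (d : ℤ) < d := Int.emod_lt_of_pos _ hd0
        have h3 : (x % (d : ℤ)).toNat < d := by omega
        have h2 : ((x % (d : ℤ)).toNat : ℤ) = x % d := Int.toNat_of_nonneg h0
        have h1 : (d : ℤ) * Tm d m r x = m (x % d).toNat * x - r (x % d).toNat := by
          unfold Tm
          apply Int.mul_ediv_cancel'
          have h4 := (hr _ h3).dvd
          have h5 : m (x % d).toNat * x - r (x % d).toNat =
              ((((x % d).toNat : ℕ) : ℤ) * m (x % d).toNat - r (x % d).toNat) +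
                m (x % d).toNat * (x - x % d) := by
            rw [h2]; ring
          rw [h5]
          exact dvd_add h4 (Dvd.dvd.mul_left (Int.dvd_self_sub_emod) _)
        set i := (x % (d : ℤ)).toNat with hi
        have h4 : |m i| ≤ (d : ℤ) := by
          by_contra hcon
          exact hb ⟨i, h3, not_le.1 hcon⟩
        have h5 : |m i| ≠ (d : ℤ) := by
          intro h6
          have h7 := hm i h3
          have h8 : (d : ℤ) ∣ m i := by
            rw [← dvd_abs, h6]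
          have h9 := h7.symm.isUnit_of_dvd' dvd_rfl h8
          have := Int.isUnit_iff.1 h9
          omega
        have h6 : |m i| ≤ (d : ℤ) - 1 := by omega
        have h7 : (d : ℤ) * |Tm d m r x| ≤ ((d : ℤ) - 1) * |x| + R := by
          have h8 : (d : ℤ) * |Tm d m r x| = |m i * x - r i| := by
            rw [← h1, abs_mul, Int.abs_natCast]
          rw [h8]
          refine (abs_sub _ _).trans ?_
          rw [abs_mul]
          exact add_le_add (mul_le_mul_of_nonneg_right h6 (abs_nonneg _)) (hR i h3)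
        have h8 : |Tm d m r x| < |x| := by
          by_contra hcon
          push Not at hcon
          have h9 : (d : ℤ) * |x| ≤ (d : ℤ) * |Tm d m r x| := mul_le_mul_of_nonneg_left hcon hd0.le
          have h10 : (d : ℤ) * |x| ≤ ((d : ℤ) - 1) * |x| + R := h9.trans h7
          have h11 : |x| ≤ R := by linarith
          omega
        have h9 : (Tm d m r x).natAbs ≤ v := by
          rw [Int.abs_eq_natAbs, Int.abs_eq_natAbs] at h8
          omega
        obtain ⟨k, hk⟩ := ih _ h9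
        exact ⟨k + 1, by rwa [Function.iterate_succ_apply]⟩
  refine ⟨(R : ℝ) + 1, by have : (0 : ℝ) ≤ R := Nat.cast_nonneg _; linarith, fun x => ?_⟩
  obtain ⟨k, hk⟩ := key _ x le_rfl
  refine ⟨k, ?_⟩
  have : (|((Tm d m r)^[k] x : ℤ)| : ℝ) ≤ R := by exact_mod_cast hk
  linarith

theorem trivial_bound (X : ℝ) (hX : 1 ≤ X) (s : Set ℤ) (hs : s ⊆ {x : ℤ | |(x : ℝ)| ≤ X}) :
    s.Finite ∧ (s.ncard : ℝ) ≤ 3 * X := by
  have hsub : s ⊆ ((Finset.Icc (-⌊X⌋) ⌊X⌋ : Finset ℤ) : Set ℤ) := by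
    intro x hx
    have h0 : |(x : ℝ)| ≤ X := hs hx
    have h1 := abs_le.1 h0
    simp only [Finset.coe_Icc, Set.mem_Icc]
    constructor
    · have : ((-x : ℤ) : ℝ) ≤ X := by push_cast; linarith [h1.1]
      have := Int.le_floor.2 this
      omega
    · exact Int.le_floor.2 h1.2
  have hfin : s.Finite := (Finset.finite_toSet _).subset hsub
  refine ⟨hfin, ?_⟩
  have h1 := Set.ncard_le_ncard hsub (Finset.finite_toSet _)
  rw [Set.ncard_coe_finset, Int.card_Icc] at h1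
  have h0 : 0 ≤ ⌊X⌋ := Int.floor_nonneg.2 (by linarith)
  have h2 : (s.ncard : ℝ) ≤ ((⌊X⌋ + 1 - -⌊X⌋).toNat : ℝ) := by exact_mod_cast h1
  have h3 : (((⌊X⌋ + 1 - -⌊X⌋).toNat : ℕ) : ℤ) = 2 * ⌊X⌋ + 1 := by
    rw [Int.toNat_of_nonneg (by omega)]
    ring
  have h4 : (((⌊X⌋ + 1 - -⌊X⌋).toNat : ℕ) : ℝ) = 2 * (⌊X⌋ : ℝ) + 1 := by exact_mod_cast h3
  have h5 := Int.floor_le X
  linarith

/-- the main theorem -/
theorem main (D : Data d m r b e) (hC : Class d m r e C ρ) (hf : ∀ B ∈ C, gg d e B = 1 ∨ gg d e B = d)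
    (hL : Lam d m C ρ < 1) : S d C = Set.univ ∧ ∃ c : ℝ, 0 < c ∧ ∃ A : ℝ, ∀ X y : ℝ, 1 ≤ X → 1 ≤ y →
      (Set.ncard {x : ℤ | |(x : ℝ)| ≤ X ∧ ∀ n : ℕ, y < |(((T d m r)^[n] x : ℤ) : ℝ)|} : ℝ) ≤ A * X / y ^ c := by
  classical
  have hdR : (0 : ℝ) < d := by exact_mod_cast d_pos D
  have hpos : 0 < Lam d m C ρ := by
    unfold Lam
    apply Finset.prod_pos
    intro i hi
    rw [mem_range] at hi
    have h := (gm D).ne i (by positivity) (by exact_mod_cast hi)
    have h2 : ((m (i : ℤ) : ℤ) : ℝ) ≠ 0 := by exact_mod_cast h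
    positivity
  have hL' : Real.log (Lam d m C ρ) < 0 := Real.log_neg hpos hL
  obtain ⟨Bf, hBf, hBf1⟩ := exists_Bf D hC hf hL'
  constructor
  · ext x
    simp only [Set.mem_univ, iff_true]
    refine ⟨(x % d, 1), fresh_mem D hC hBf hBf1 (res D x).1 (res D x).2, ?_⟩
    show x ≡ x % d [ZMOD ((d * 1 : ℕ) : ℤ)]
    rw [mul_one]
    exact (Int.mod_modEq _ _).symm
  · have hsub : ∀ X y : ℝ, {x : ℤ | |(x : ℝ)| ≤ X ∧ ∀ n : ℕ, y < |(((T d m r)^[n] x : ℤ) : ℝ)|} ⊆
        {x : ℤ | |(x : ℝ)| ≤ X ∧ ∀ n : ℕ, y < |(((Tm d (ma d m r b e) (ra d m r b e))^[n] x : ℤ) : ℝ)|} := by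
      rintro X y x ⟨h1, h2⟩
      refine ⟨h1, fun n => ?_⟩
      obtain ⟨N, hN⟩ := Tm_iter D hC hf hBf hBf1 x n
      rw [hN]
      exact h2 N
    by_cases hb : ∃ i < d, (d : ℤ) < |ma d m r b e i|
    · have hA := Pool.Agent.TH930.GH.Adm_of D.two_le (fun i _ => ma_cop D i) (fun i _ => ra_cong i)
        (contr D hC hf hL') hb
      obtain ⟨c, hc, -, h⟩ := Pool.Agent.TH930.GH.power_opt hA hb
      obtain ⟨A, hA0, h2⟩ := h _ hA
      refine ⟨c, hc, A, fun X y hX hy => le_trans ?_ (h2 X y hX hy)⟩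
      exact_mod_cast Set.ncard_le_ncard (hsub X y) (trivial_bound X hX _ fun x hx => hx.1).1
    · obtain ⟨R, hR1, hR⟩ := enters_small D.two_le (fun i _ => ma_cop D i) (fun i _ => ra_cong i) hb
      refine ⟨1, one_pos, 3 * R, fun X y hX hy => ?_⟩
      rw [Real.rpow_one]
      have hy0 : 0 < y := by linarith
      by_cases hyR : R ≤ y
      · have : {x : ℤ | |(x : ℝ)| ≤ X ∧ ∀ n : ℕ, y < |(((T d m r)^[n] x : ℤ) : ℝ)|} = ∅ := by
          rw [Set.eq_empty_iff_forall_notMem]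
          intro x hx
          obtain ⟨k, hk⟩ := hR x
          have h3 := (hsub X y hx).2 k
          linarith
        rw [this, Set.ncard_empty, Nat.cast_zero]
        positivity
      · refine (trivial_bound X hX _ fun x hx => hx.1).2.trans ?_
        rw [le_div_iff₀ hy0]
        push Not at hyR
        nlinarith

end Pool.Agent.Zk39.PM
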